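import Pool.Agent.Lib.MP_a24ad1_pr.Base

/-!
A stationary ergodic input of the two-server queue for which the distance in total variation between
the law of the Kiefer-Wolfowitz vector and the minimal stationary distribution is always one.
-/

set_option autoImplicit false

open MeasureTheory Filter Topology BoundedContinuousFunction
open Pool.Agent.Lib.MP_a24ad1_pr

namespace Pool.Agent.Results.MP_a24ad1_pr.DistanceOne

/-- The vector `(w + e₁ σ - 1 t)⁺`. -/
noncomputable def pos {k : ℕ} (w : Fin (k + 1) → ℝ) (σ t : ℝ) : Fin (k + 1) → ℝ :=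
  fun i => max (w i + (if i = 0 then σ else 0) - t) 0

/-- The step `R (w + e₁ σ - 1 t)⁺` of the recursion; the coordinates are sorted in weakly increasing
order. -/
noncomputable def kwStep {k : ℕ} (w : Fin (k + 1) → ℝ) (σ t : ℝ) : Fin (k + 1) → ℝ :=
  pos w σ t ∘ Tuple.sort (pos w σ t)

/-- The Kiefer-Wolfowitz vectors of `m = k + 1` servers with zero initial condition and the
interarrival times `t n` and service times `σ n`, `n ≥ 0`. -/
noncomputable def kw {Ω : Type} {k : ℕ} (t σ : ℕ → Ω → ℝ) : ℕ → Ω → Fin (k + 1) → ℝ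
  | 0, _ => 0
  | n + 1, ω => kwStep (kw t σ n ω) (σ n ω) (t n ω)

lemma kwStep_eq (v : Fin 2 → ℝ) (σ t : ℝ) (h : v 1 ≤ v 0 + σ) :
    kwStep v σ t = ![max (v 1 - t) 0, max (v 0 + σ - t) 0] := by
  have hu0 : pos v σ t 0 = max (v 0 + σ - t) 0 := by simp [pos]
  have hu1 : pos v σ t 1 = max (v 1 - t) 0 := by simp [pos]
  have hmono : Monotone (pos v σ t ∘ (Equiv.swap (0 : Fin 2) 1)) := by
    intro i j hij
    have h1 : max (v 1 - t) 0 ≤ max (v 0 + σ - t) 0 := max_le_max (by linarith) le_rfl
    fin_cases i <;> fin_cases j <;> simp_all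
  have hsort := Tuple.comp_sort_eq_comp_iff_monotone.mpr hmono
  unfold kwStep
  rw [← hsort]
  funext i
  fin_cases i
  · simp [hu1]
  · simp [hu0]

/-- The running maximum of the values of `s` that have been used before time `n`. -/
noncomputable def Mr : ℕ → Om → ℝ
  | 0, _ => 0
  | n + 1, p => if (theta^[n] p).1 then max (Mr n p) (s (theta^[n] p).2) else Mr n p

lemma Mr_nonneg (n : ℕ) (p : Om) : 0 ≤ Mr n p := by
  induction n with
  | zero => exact le_refl _
  | succ n ih =>
    unfold Mr
    split_ifs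
    · exact ih.trans (le_max_left _ _)
    · exact ih

lemma Mr_lt (n : ℕ) (p : Om) : Mr n p < 1 / 2 := by
  induction n with
  | zero => show (0 : ℝ) < 1 / 2; norm_num
  | succ n ih =>
    unfold Mr
    split_ifs
    · exact max_lt ih (s_lt _)
    · exact ih

lemma Mr_mono (p : Om) : Monotone (fun n => Mr n p) := by
  refine monotone_nat_of_le_succ fun n => ?_
  show Mr n p ≤ Mr (n + 1) p
  rw [Mr]
  split_ifs
  · exact le_max_left _ _
  · exact le_rfl

lemma measurable_Mr (n : ℕ) : Measurable (Mr n) := by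
  induction n with
  | zero => exact measurable_const
  | succ n ih =>
    have h1 : Measurable (fun p : Om => theta^[n] p) := measurable_theta.iterate n
    have h2 : MeasurableSet {p : Om | (theta^[n] p).1 = true} :=
      (measurable_fst.comp h1) (measurableSet_singleton true)
    show Measurable (fun p => if (theta^[n] p).1 then max (Mr n p) (s (theta^[n] p).2) else Mr n p)
    exact Measurable.ite h2 (ih.max (measurable_s.comp (measurable_snd.comp h1))) ih

/-- The stationary vector. -/
noncomputable def F (p : Om) : Fin 2 → ℝ :=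
  if p.1 then ![1 / 2 - s p.2, 1 - s p.2] else ![0, 1 / 2]

/-- The Kiefer-Wolfowitz vector of the system. -/
noncomputable def W (n : ℕ) (p : Om) : Fin 2 → ℝ :=
  kw (k := 1) (fun n p => tt (theta^[n] p)) (fun n p => ss (theta^[n] p)) n p

lemma W_succ (n : ℕ) (p : Om) :
    W (n + 1) p = kwStep (W n p) (ss (theta^[n] p)) (tt (theta^[n] p)) := rfl

/-- The value of the vector at time `n`. -/
lemma W_eq (n : ℕ) (p : Om) : ((theta^[n] p).1 = false ∧ W n p = ![0, Mr n p]) ∨
    ((theta^[n] p).1 = true ∧ ((n = 0 ∧ W n p = ![0, 0]) ∨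
      (0 < n ∧ W n p = ![max (Mr n p - s (theta^[n] p).2) 0, 1 - s (theta^[n] p).2]))) := by
  induction n with
  | zero =>
    have h0 : W 0 p = ![0, 0] := by
      funext i
      fin_cases i <;> rfl
    rcases hb : (theta^[0] p).1 with _ | _
    · left
      exact ⟨rfl, h0⟩
    · right
      exact ⟨rfl, Or.inl ⟨rfl, h0⟩⟩
  | succ n ih =>
    obtain ⟨q, hq⟩ : ∃ q, q = theta^[n] p := ⟨_, rfl⟩
    have hq' : theta^[n + 1] p = theta q := by rw [Function.iterate_succ_apply', hq]
    have hM0 := Mr_nonneg n p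
    have hM1 := Mr_lt n p
    have hr0 := s_nonneg q.2
    have hr1 := s_lt q.2
    rw [hq', W_succ]
    rw [← hq] at ih ⊢
    have hMs : Mr (n + 1) p = if q.1 then max (Mr n p) (s q.2) else Mr n p := by
      rw [hq]
      rfl
    rcases ih with ⟨hb, hW⟩ | ⟨hb, hW⟩
    · right
      have e1 : ss q = 1 := by simp [ss, hb]
      have e2 : tt q = s q.2 := by simp [tt, hb]
      have e3 : (theta q).1 = true := by simp [theta, hb]
      have e4 : (theta q).2 = q.2 := by simp [theta, hb]
      rw [hb] at hMs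
      simp only [Bool.false_eq_true, if_false] at hMs
      refine ⟨e3, Or.inr ⟨Nat.succ_pos n, ?_⟩⟩
      rw [e4, hW, e1, e2, hMs, kwStep_eq]
      · simp only [Matrix.cons_val_zero, Matrix.cons_val_one]
        rw [zero_add, max_eq_left (a := 1 - s q.2) (by linarith)]
      · simp only [Matrix.cons_val_zero, Matrix.cons_val_one]
        linarith
    · left
      have e1 : ss q = 2 := by simp [ss, hb]
      have e2 : tt q = 2 - s q.2 := by simp [tt, hb]
      have e3 : (theta q).1 = false := by simp [theta, hb]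
      rw [hb] at hMs
      simp only [if_true] at hMs
      refine ⟨e3, ?_⟩
      rw [e1, e2, hMs]
      rcases hW with ⟨hn, hW⟩ | ⟨_, hW⟩
      · have hM : Mr n p = 0 := by rw [hn]; rfl
        rw [hW, hM, kwStep_eq]
        · simp only [Matrix.cons_val_zero, Matrix.cons_val_one]
          rw [max_eq_right (a := (0 : ℝ) - (2 - s q.2)) (by linarith),
            max_eq_left (a := (0 : ℝ) + 2 - (2 - s q.2)) (by linarith),
            max_eq_right (a := (0 : ℝ)) hr0]
          congr 2
          ring
        · simp only [Matrix.cons_val_zero, Matrix.cons_val_one]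
          linarith
      · have hmax : 0 ≤ max (Mr n p - s q.2) 0 := le_max_right _ _
        rw [hW, kwStep_eq]
        · simp only [Matrix.cons_val_zero, Matrix.cons_val_one]
          rw [max_eq_right (a := 1 - s q.2 - (2 - s q.2)) (by linarith)]
          have : max (Mr n p - s q.2) 0 + 2 - (2 - s q.2) = max (Mr n p) (s q.2) := by
            rw [← max_add_add_right, ← max_sub_sub_right]
            congr 1 <;> ring
          rw [this, max_eq_left (hM0.trans (le_max_left _ _))]
        · simp only [Matrix.cons_val_zero, Matrix.cons_val_one]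
          linarith

/-- The set of the vectors with difference `1 / 2`. -/
def B : Set (Fin 2 → ℝ) := {v | v 1 - v 0 = 1 / 2}

lemma measurable_B : MeasurableSet B := by
  have h : Measurable (fun v : Fin 2 → ℝ => v 1 - v 0) :=
    (measurable_pi_apply 1).sub (measurable_pi_apply 0)
  exact h (measurableSet_singleton (1 / 2 : ℝ))

lemma F_mem (p : Om) : F p ∈ B := by
  unfold F B
  split_ifs
  · show (1 - s p.2) - (1 / 2 - s p.2) = 1 / 2
    ring
  · show (1 / 2 : ℝ) - 0 = 1 / 2
    ring

lemma W_notMem (n : ℕ) (p : Om) : W n p ∉ B := by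
  intro h
  have h' : W n p 1 - W n p 0 = 1 / 2 := h
  have hM0 := Mr_nonneg n p
  have hM1 := Mr_lt n p
  have hr0 := s_nonneg (theta^[n] p).2
  have hr1 := s_lt (theta^[n] p).2
  rcases W_eq n p with ⟨_, hW⟩ | ⟨_, ⟨_, hW⟩ | ⟨_, hW⟩⟩ <;> rw [hW] at h' <;>
    simp only [Matrix.cons_val_zero, Matrix.cons_val_one] at h'
  · linarith
  · norm_num at h'
  · rcases le_total (Mr n p - s (theta^[n] p).2) 0 with h1 | h1
    · rw [max_eq_right h1] at h'
      linarith
    · rw [max_eq_left h1] at h'
      linarith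

lemma dist_le (n : ℕ) (hn : 0 < n) (p : Om) :
    dist (W n p) (F (theta^[n] p)) ≤ 1 / 2 - Mr n p := by
  have hM0 := Mr_nonneg n p
  have hM1 := Mr_lt n p
  have hr0 := s_nonneg (theta^[n] p).2
  have hr1 := s_lt (theta^[n] p).2
  rw [dist_pi_le_iff (by linarith)]
  intro i
  unfold F
  rcases W_eq n p with ⟨hb, hW⟩ | ⟨hb, ⟨hn0, _⟩ | ⟨_, hW⟩⟩
  · rw [hW, hb, Real.dist_eq]
    fin_cases i
    · simp
      linarith
    · simp
      rw [abs_of_nonpos (by linarith)]
      linarith
  · omega
  · rw [hW, hb, Real.dist_eq]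
    fin_cases i
    · simp
      rcases le_total (Mr n p - s (theta^[n] p).2) 0 with h1 | h1
      · rw [max_eq_right h1, abs_of_nonpos (by linarith)]
        linarith
      · rw [max_eq_left h1, abs_of_nonpos (by linarith)]
        linarith
    · simp
      linarith

lemma measurable_F : Measurable F := by
  have h1 : MeasurableSet {p : Om | p.1 = true} := measurable_fst (measurableSet_singleton true)
  have h2 : Measurable (fun p : Om => s p.2) := measurable_s.comp measurable_snd
  unfold F
  refine Measurable.ite h1 ?_ measurable_const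
  rw [measurable_pi_iff]
  intro i
  fin_cases i
  · simp
    exact measurable_const.sub h2
  · simp
    exact measurable_const.sub h2

lemma measurable_W (n : ℕ) : Measurable (W n) := by
  rcases Nat.eq_zero_or_pos n with rfl | hn
  · exact measurable_const
  have h0 : Measurable (fun p : Om => theta^[n] p) := measurable_theta.iterate n
  have h1 : MeasurableSet {p : Om | (theta^[n] p).1 = true} :=
    (measurable_fst.comp h0) (measurableSet_singleton true)
  have h2 : Measurable (fun p : Om => s (theta^[n] p).2) :=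
    measurable_s.comp (measurable_snd.comp h0)
  have h3 : W n = fun p => if (theta^[n] p).1 = true then
      ![max (Mr n p - s (theta^[n] p).2) 0, 1 - s (theta^[n] p).2] else ![0, Mr n p] := by
    funext p
    rcases W_eq n p with ⟨hb, hW⟩ | ⟨hb, ⟨hn0, _⟩ | ⟨_, hW⟩⟩
    · rw [hW, hb]
      simp
    · omega
    · rw [hW, hb]
      simp
  rw [h3]
  have h4 := measurable_Mr n
  refine Measurable.ite h1 ?_ ?_
  · rw [measurable_pi_iff]
    intro i
    fin_cases i
    · simp
      exact (h4.sub h2).max measurable_const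
    · simp
      exact measurable_const.sub h2
  · rw [measurable_pi_iff]
    intro i
    fin_cases i
    · simp
    · simp
      exact h4

lemma theta_two (q : Om) : theta (theta q) = (q.1, dbl q.2) := by
  obtain ⟨b, y⟩ := q
  cases b <;> rfl

lemma theta_even (k : ℕ) (p : Om) : theta^[2 * k] p = (p.1, dbl^[k] p.2) := by
  induction k with
  | zero => rfl
  | succ k ih =>
    rw [show 2 * (k + 1) = 2 * k + 1 + 1 by ring, Function.iterate_succ_apply',
      Function.iterate_succ_apply', ih, theta_two, Function.iterate_succ_apply']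

lemma s_le_Mr (k : ℕ) (p : Om) : s (dbl^[k] p.2) ≤ Mr (2 * k + 2) p := by
  have h1 := theta_even k p
  have h2 : theta^[2 * k + 1] p = theta (p.1, dbl^[k] p.2) := by
    rw [Function.iterate_succ_apply', h1]
  rcases hb : p.1 with _ | _
  · rw [Mr, h2, hb]
    show s (dbl^[k] p.2) ≤ if true = true then max (Mr (2 * k + 1) p) (s (dbl^[k] p.2)) else _
    rw [if_pos rfl]
    exact le_max_right _ _
  · refine le_trans ?_ (Mr_mono p (show 2 * k + 1 ≤ 2 * k + 2 by omega))
    show _ ≤ Mr (2 * k + 1) p
    rw [Mr, h1, hb]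
    show s (dbl^[k] p.2) ≤ if true = true then max (Mr (2 * k) p) (s (dbl^[k] p.2)) else _
    rw [if_pos rfl]
    exact le_max_right _ _

/-- The running maximum along the orbit of the circle is reached after `2 n` steps. -/
lemma runmax_le (n : ℕ) (p : Om) : runmax n p.2 ≤ Mr (2 * n) p := by
  induction n with
  | zero => exact Mr_nonneg 0 p
  | succ n ih =>
    show max (runmax n p.2) (s (dbl^[n] p.2)) ≤ Mr (2 * n + 2) p
    exact max_le (ih.trans (Mr_mono p (show 2 * n ≤ 2 * n + 2 by omega))) (s_le_Mr n p)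

lemma ae_runmax : ∀ᵐ x ∂(volume : Measure Circ), ∀ j : ℕ, ∃ n,
    1 / 2 - 1 / ((j : ℝ) + 1) ≤ runmax n x := by
  rw [ae_all_iff]
  intro j
  have h1 := measure_iUnion (1 / ((j : ℝ) + 1)) (by positivity)
  have hmeas : MeasurableSet (⋃ n, {x | 1 / 2 - 1 / ((j : ℝ) + 1) ≤ runmax n x}) :=
    MeasurableSet.iUnion fun n => measurableSet_le measurable_const (measurable_runmax n)
  have h2 := (prob_compl_eq_zero_iff hmeas).mpr h1
  rw [ae_iff]
  refine measure_mono_null ?_ h2
  intro x hx hcon
  apply hx
  obtain ⟨n, hn⟩ := Set.mem_iUnion.mp hcon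
  exact ⟨n, hn⟩

lemma ae_tendsto : ∀ᵐ p ∂mu, Tendsto (fun n => Mr n p) atTop (𝓝 (1 / 2)) := by
  have hq : Measure.QuasiMeasurePreserving (Prod.snd : Om → Circ) mu volume :=
    Measure.quasiMeasurePreserving_snd
  filter_upwards [hq.ae ae_runmax] with p hp
  rw [Metric.tendsto_atTop]
  intro ε hε
  obtain ⟨j, hj⟩ := exists_nat_one_div_lt hε
  obtain ⟨n, hn⟩ := hp j
  refine ⟨2 * n, fun k hk => ?_⟩
  have h1 := runmax_le n p
  have h2 := Mr_mono p hk
  have h3 := Mr_lt k p
  have h2' : Mr (2 * n) p ≤ Mr k p := h2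
  rw [Real.dist_eq, abs_of_nonpos (by linarith)]
  linarith

lemma ae_dist : ∀ᵐ p ∂mu, Tendsto (fun n => dist (W n p) (F (theta^[n] p))) atTop (𝓝 0) := by
  filter_upwards [ae_tendsto] with p hp
  have h1 : Tendsto (fun n => 1 / 2 - Mr n p) atTop (𝓝 0) := by
    have := hp.const_sub (1 / 2)
    rwa [sub_self] at this
  refine squeeze_zero' (Eventually.of_forall fun n => dist_nonneg) ?_ h1
  filter_upwards [eventually_gt_atTop 0] with n hn
  exact dist_le n hn p

/-- The box which contains all the vectors. -/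
def box : Set (Fin 2 → ℝ) := Set.Icc 0 1

lemma W_mem (n : ℕ) (p : Om) : W n p ∈ box := by
  have hM0 := Mr_nonneg n p
  have hM1 := Mr_lt n p
  have hr0 := s_nonneg (theta^[n] p).2
  have hr1 := s_lt (theta^[n] p).2
  have key : ∀ i, 0 ≤ W n p i ∧ W n p i ≤ 1 := by
    intro i
    rcases W_eq n p with ⟨_, hW⟩ | ⟨_, ⟨_, hW⟩ | ⟨_, hW⟩⟩ <;> rw [hW] <;> fin_cases i <;>
      simp <;> (try constructor) <;> linarith
  exact ⟨fun i => (key i).1, fun i => (key i).2⟩

lemma F_box (p : Om) : F p ∈ box := by
  have hr0 := s_nonneg p.2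
  have hr1 := s_lt p.2
  have key : ∀ i, 0 ≤ F p i ∧ F p i ≤ 1 := by
    intro i
    unfold F
    split_ifs <;> fin_cases i <;> simp <;> (try constructor) <;> linarith
  exact ⟨fun i => (key i).1, fun i => (key i).2⟩

lemma ae_f (f : (Fin 2 → ℝ) →ᵇ ℝ) :
    ∀ᵐ p ∂mu, Tendsto (fun n => f (W n p) - f (F (theta^[n] p))) atTop (𝓝 0) := by
  have hc : UniformContinuousOn f box :=
    isCompact_Icc.uniformContinuousOn_of_continuous f.continuous.continuousOn
  rw [Metric.uniformContinuousOn_iff] at hc
  filter_upwards [ae_dist] with p hp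
  rw [Metric.tendsto_atTop] at hp ⊢
  intro ε hε
  obtain ⟨δ, hδ, h1⟩ := hc ε hε
  obtain ⟨N, hN⟩ := hp δ hδ
  refine ⟨N, fun n hn => ?_⟩
  have h2 := hN n hn
  rw [Real.dist_eq, sub_zero, abs_of_nonneg dist_nonneg] at h2
  have h3 := h1 _ (W_mem n p) _ (F_box _) h2
  rw [Real.dist_eq, sub_zero, ← Real.dist_eq]
  exact h3

lemma integral_F (f : (Fin 2 → ℝ) →ᵇ ℝ) (n : ℕ) :
    ∫ p, f (F (theta^[n] p)) ∂mu = ∫ v, f v ∂(mu.map F) := by
  have h1 : mu.map (theta^[n]) = mu := (mp_theta.iterate n).map_eq
  have hf : Measurable f := f.continuous.measurable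
  rw [integral_map measurable_F.aemeasurable hf.aestronglyMeasurable]
  conv_rhs => rw [← h1]
  rw [integral_map (f := fun x => f (F x)) (measurable_theta.iterate n).aemeasurable
    (hf.comp measurable_F).aestronglyMeasurable]

lemma weak (f : (Fin 2 → ℝ) →ᵇ ℝ) :
    Tendsto (fun n => ∫ p, f (W n p) ∂mu) atTop (𝓝 (∫ v, f v ∂(mu.map F))) := by
  have hf : Measurable f := f.continuous.measurable
  have hm1 : ∀ n, Measurable (fun p => f (W n p)) := fun n => hf.comp (measurable_W n)
  have hm2 : ∀ n, Measurable (fun p => f (F (theta^[n] p))) := fun n =>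
    hf.comp (measurable_F.comp (measurable_theta.iterate n))
  have hb : ∀ v, ‖f v‖ ≤ ‖f‖ := f.norm_coe_le_norm
  have h1 : Tendsto (fun n => ∫ p, (f (W n p) - f (F (theta^[n] p))) ∂mu) atTop
      (𝓝 (∫ _, (0 : ℝ) ∂mu)) := by
    refine tendsto_integral_of_dominated_convergence (fun _ => ‖f‖ + ‖f‖)
      (fun n => ((hm1 n).sub (hm2 n)).aestronglyMeasurable) (integrable_const _) ?_ (ae_f f)
    intro n
    refine Eventually.of_forall fun p => ?_
    exact (norm_sub_le _ _).trans (add_le_add (hb _) (hb _))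
  rw [integral_zero] at h1
  have h2 := h1.add_const (∫ v, f v ∂(mu.map F))
  rw [zero_add] at h2
  refine h2.congr fun n => ?_
  rw [integral_sub, integral_F, sub_add_cancel]
  · exact Integrable.of_bound (hm1 n).aestronglyMeasurable ‖f‖
      (Eventually.of_forall fun p => hb _)
  · exact Integrable.of_bound (hm2 n).aestronglyMeasurable ‖f‖
      (Eventually.of_forall fun p => hb _)

/-- There is a stationary ergodic sequence of pairs of an interarrival time in `[0, 2]` and a
service time in `[1, 2]` with `E σ < 2 E t` such that the law of the Kiefer-Wolfowitz vector of the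
queue with two servers, started from `0`, converges weakly to a probability measure `π` (so `π` is
the minimal stationary distribution), but there is a Borel set `B` with `π B = 1` and
`P (W n ∈ B) = 0` for all `n`: the distance in total variation is one for all `n`. -/
theorem result : ∃ (Ω : Type) (_ : MeasurableSpace Ω) (P : Measure Ω) (t σ : ℕ → Ω → ℝ)
    (π : Measure (Fin 2 → ℝ)) (B : Set (Fin 2 → ℝ)),
    IsProbabilityMeasure P ∧ IsProbabilityMeasure π ∧
    (∀ n, Measurable (t n) ∧ Measurable (σ n)) ∧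
    (∀ n ω, 0 ≤ t n ω ∧ t n ω ≤ 2 ∧ 1 ≤ σ n ω ∧ σ n ω ≤ 2) ∧
    Ergodic (fun (z : ℕ → ℝ × ℝ) (n : ℕ) => z (n + 1))
      (P.map (fun ω n => (t n ω, σ n ω))) ∧
    ∫ ω, σ 0 ω ∂P < 2 * ∫ ω, t 0 ω ∂P ∧
    (∀ f : (Fin 2 → ℝ) →ᵇ ℝ, Tendsto (fun n => ∫ ω, f (kw (k := 1) t σ n ω) ∂P) atTop
      (𝓝 (∫ v, f v ∂π))) ∧
    MeasurableSet B ∧ π B = 1 ∧ ∀ n, P {ω | kw (k := 1) t σ n ω ∈ B} = 0 := by
  have hmt : ∀ n, Measurable (fun p => tt (theta^[n] p)) := fun n =>
    measurable_tt.comp (measurable_theta.iterate n)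
  have hms : ∀ n, Measurable (fun p => ss (theta^[n] p)) := fun n =>
    measurable_ss.comp (measurable_theta.iterate n)
  have hss1 : ∀ q, 1 ≤ ss q := by
    intro q
    unfold ss
    split_ifs <;> norm_num
  refine ⟨Om, inferInstance, mu, fun n p => tt (theta^[n] p), fun n p => ss (theta^[n] p),
    mu.map F, B, inferInstance, Measure.isProbabilityMeasure_map measurable_F.aemeasurable,
    fun n => ⟨hmt n, hms n⟩, fun n p => ⟨tt_nonneg _, tt_le _, hss1 _, ss_le _⟩, ?_, ?_, weak,
    measurable_B, ?_, ?_⟩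
  · have hg : Measurable (fun (p : Om) (n : ℕ) => (tt (theta^[n] p), ss (theta^[n] p))) :=
      measurable_pi_iff.mpr fun n => (hmt n).prodMk (hms n)
    refine hg.measurePreserving mu |>.ergodic_of_ergodic_semiconj ergodic_theta ?_ ?_
    · exact measurable_pi_iff.mpr fun n => measurable_pi_apply (n + 1)
    · intro p
      rfl
  · have h := stability
    simp only [Function.iterate_zero, id_eq]
    norm_num at h
    exact h
  · rw [Measure.map_apply measurable_F measurable_B]
    have h : F ⁻¹' B = Set.univ := Set.eq_univ_of_forall F_mem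
    rw [h, measure_univ]
  · intro n
    have h : {p | kw (k := 1) (fun n p => tt (theta^[n] p)) (fun n p => ss (theta^[n] p)) n p ∈ B} =
        ∅ := Set.eq_empty_of_forall_notMem fun p hp => W_notMem n p hp
    rw [h, measure_empty]

end Pool.Agent.Results.MP_a24ad1_pr.DistanceOne
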